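import Mathlib

/-! Step 3: the quadratic relation has no solution. -/

namespace R243.ZM

open Complex

set_option maxHeartbeats 1000000

theorem exists_sqrt_upper {z : ℂ} (hz : 0 < z.im) : ∃ s : ℂ, s ^ 2 = z ∧ 0 < s.re ∧ 0 < s.im := by
  obtain ⟨s, hs⟩ := IsAlgClosed.exists_pow_nat_eq z (n := 2) (by norm_num)
  have him : z.im = 2 * s.re * s.im := by
    rw [← hs, pow_two, Complex.mul_im]; ring
  rw [him] at hz
  rcases lt_or_ge 0 s.im with h | h
  · refine ⟨s, hs, ?_, h⟩
    by_contra hcon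
    push Not at hcon
    nlinarith [mul_nonneg (neg_nonneg.mpr hcon) h.le]
  · have h2 : s.im < 0 := by
      rcases h.lt_or_eq with h | h
      · exact h
      · rw [h] at hz; simp at hz
    refine ⟨-s, by rw [neg_sq]; exact hs, ?_, by simpa using h2⟩
    simp only [Complex.neg_re]
    by_contra hcon
    push Not at hcon
    nlinarith [mul_nonneg (neg_nonneg.mpr (by linarith : -s.re ≤ 0)) (neg_nonneg.mpr h2.le)]

/-- real inequality behind the comparison of real parts -/
theorem re_comp {m' a' α β A B : ℝ} (hm : 0 ≤ m') (ha : 0 < a') (hα : 0 < α) (hβ : 0 < β)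
    (hA : 0 < A) (hB : 0 < B) (h1 : α * β = A * B) (h2 : A ^ 2 - B ^ 2 = α ^ 2 - β ^ 2 + a')
    (hG : m' * (m' + a') < (m' + a') * α ^ 2 + m' * β ^ 2) :
    m' * A ^ 2 < (m' + a') * α ^ 2 := by
  rcases hm.eq_or_lt with h0 | hm0
  · rw [← h0]; nlinarith [pow_pos hα 2, mul_pos ha (pow_pos hα 2)]
  by_contra hcon
  push Not at hcon
  set T : ℝ := A ^ 2 with hT
  have hTpos : 0 < T := by positivity
  set c : ℝ := α ^ 2 - β ^ 2 + a' with hc
  have hB2 : B ^ 2 = T - c := by rw [hT]; linarith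
  have hq : T * (T - c) = α ^ 2 * β ^ 2 := by
    rw [← hB2, hT]
    calc A ^ 2 * B ^ 2 = (A * B) ^ 2 := by ring
      _ = _ := by rw [← h1]; ring
  have hTc : 0 < T - c := by rw [← hB2]; positivity
  -- T0 = (m'+a')α²/m'
  have hcomp : ((m' + a') * α ^ 2) * ((m' + a') * α ^ 2 - m' * c) ≤ (m' * T) * (m' * T - m' * c) := by
    have : 0 ≤ (m' * T - (m' + a') * α ^ 2) * (m' * T + (m' + a') * α ^ 2 - m' * c) := by
      apply mul_nonneg (by linarith)
      have h3 : 0 < m' * (T - c) := by positivity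
      have h4 : 0 < (m' + a') * α ^ 2 := by positivity
      nlinarith
    nlinarith
  have h5 : (m' * T) * (m' * T - m' * c) = m' ^ 2 * (α ^ 2 * β ^ 2) := by rw [← hq]; ring
  rw [h5] at hcomp
  -- contradiction with hG
  have h6 : ((m' + a') * α ^ 2) * ((m' + a') * α ^ 2 - m' * c) - m' ^ 2 * (α ^ 2 * β ^ 2)
      = α ^ 2 * a' * (((m' + a') * α ^ 2 + m' * β ^ 2) - m' * (m' + a')) := by
    rw [hc]; ring
  have h7 : 0 < α ^ 2 * a' * (((m' + a') * α ^ 2 + m' * β ^ 2) - m' * (m' + a')) := by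
    apply mul_pos (by positivity); linarith
  linarith

theorem cmp_sqrt {α β A B c : ℝ} (hα : 0 < α) (hβ : 0 < β) (hA : 0 < A) (hB : 0 < B)
    (hc : 0 < c) (h1 : α * β = A * B) (h2 : A ^ 2 - B ^ 2 = α ^ 2 - β ^ 2 + c) :
    α < A ∧ B < β := by
  have hus : α < A := by
    by_contra hcon
    push Not at hcon
    have h3 : β ≤ B := by
      by_contra h4
      push Not at h4
      have h5 : A * B ≤ α * B := mul_le_mul_of_nonneg_right hcon hB.le
      have h6 : α * B < α * β := mul_lt_mul_of_pos_left h4 hα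
      linarith
    have h5 : A ^ 2 ≤ α ^ 2 := pow_le_pow_left₀ hA.le hcon 2
    have h6 : β ^ 2 ≤ B ^ 2 := pow_le_pow_left₀ hβ.le h3 2
    linarith
  refine ⟨hus, ?_⟩
  by_contra hcon
  push Not at hcon
  have h5 : α * β < A * β := mul_lt_mul_of_pos_right hus hβ
  have h6 : A * β ≤ A * B := mul_le_mul_of_nonneg_left hcon hA.le
  linarith

/-- (G) -/
theorem ineq_G {x : ℂ} {a m p : ℝ} (ha : 0 < a) (hm : 0 ≤ m) (hp : 0 ≤ p) (hpm : p ≤ m)
    (hx : 0 < x.im) (hR : m + a ≤ ‖x‖) :
    2 * ((m - p) * ((m - p) + (a + 2 * p))) <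
      (a + 2 * p) * (x.re - p) + (2 * m + a) * ‖x - (p : ℂ)‖ := by
  set R := ‖x‖ with hRdef
  have hRpos : 0 < R := by linarith
  have hRsq : R ^ 2 = x.re ^ 2 + x.im ^ 2 := by
    rw [hRdef, ← Complex.normSq_eq_norm_sq, Complex.normSq_apply]; ring
  set c := x.re / R with hc
  have hxre : x.re = c * R := by rw [hc]; field_simp
  have hc2 : c ^ 2 < 1 := by
    rw [hc, div_pow, div_lt_one (by positivity), hRsq]
    nlinarith [pow_pos hx 2]
  have hc1 : c < 1 := by nlinarith
  have hc1' : -1 < c := by nlinarith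
  have hR' : R - p * c ≤ ‖x - (p : ℂ)‖ := by
    have h1 : ‖x - (p : ℂ)‖ ^ 2 = R ^ 2 - 2 * p * (c * R) + p ^ 2 := by
      rw [← Complex.normSq_eq_norm_sq, Complex.normSq_apply]
      simp only [Complex.sub_re, Complex.ofReal_re, Complex.sub_im, Complex.ofReal_im, sub_zero]
      rw [hRsq, ← hxre]; ring
    have h2 : (R - p * c) ^ 2 ≤ ‖x - (p : ℂ)‖ ^ 2 := by
      rw [h1]; nlinarith [sq_nonneg p, mul_nonneg (sq_nonneg p) (by linarith : 0 ≤ 1 - c ^ 2)]
    exact le_of_abs_le (abs_le_of_sq_le_sq h2 (norm_nonneg _))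
  have h2m : 0 < 2 * m + a := by linarith
  have hstep : (a + 2 * p) * (c * R - p) + (2 * m + a) * (R - p * c) ≤
      (a + 2 * p) * (x.re - p) + (2 * m + a) * ‖x - (p : ℂ)‖ := by
    rw [hxre]; nlinarith [mul_le_mul_of_nonneg_left hR' h2m.le]
  refine lt_of_lt_of_le ?_ hstep
  have e1 : (a + 2 * p) * (c * R - p) + (2 * m + a) * (R - p * c)
      = (1 + c) * ((m + a + p) * (R - p)) + (1 - c) * ((m - p) * (R + p)) := by ring
  rw [e1]
  have k1 : (m + a + p) * (m - p) < (m + a + p) * (R - p) := by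
    apply mul_lt_mul_of_pos_left _ (by linarith); linarith
  have k2 : (m - p) * (m + a + p) ≤ (m - p) * (R + p) := by
    apply mul_le_mul_of_nonneg_left _ (by linarith); linarith
  have k3 := mul_lt_mul_of_pos_left k1 (by linarith : 0 < 1 + c)
  have k4 := mul_le_mul_of_nonneg_left k2 (by linarith : 0 ≤ 1 - c)
  nlinarith

/-- the relation (R) is impossible -/
theorem no_sol {x θ : ℂ} {a m t : ℝ} (ha : 0 < a) (hm : 0 ≤ m) (hx : 0 < x.im) (hθ : 0 ≤ θ.im)
    (hR : m + a ≤ ‖x‖) (ht0 : 0 ≤ t) (ht1 : t ≤ m * (m + a))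
    (h : (x - m + (2 * m + a) * θ) ^ 2 = -(4 * t) * (θ * (1 - θ))) : False := by
  -- kappa, p
  set κ := m * (m + a) - t with hκ
  have hκ0 : 0 ≤ κ := by linarith
  set p := (-a + Real.sqrt (a ^ 2 + 4 * κ)) / 2 with hp
  have hsq : Real.sqrt (a ^ 2 + 4 * κ) ^ 2 = a ^ 2 + 4 * κ := Real.sq_sqrt (by positivity)
  have hpp : p * (p + a) = κ := by rw [hp]; nlinarith
  have hp0 : 0 ≤ p := by
    have : a ≤ Real.sqrt (a ^ 2 + 4 * κ) := Real.le_sqrt_of_sq_le (by linarith)
    rw [hp]; linarith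
  have hpm : p ≤ m := by
    by_contra hcon
    push Not at hcon
    have : m * (m + a) < p * (p + a) := by nlinarith
    linarith
  set m' := m - p with hm'
  set a' := a + 2 * p with ha'
  have hm'0 : 0 ≤ m' := by linarith
  have ha'0 : 0 < a' := by linarith
  have htm : t = m' * (m' + a') := by
    have : t = m * (m + a) - p * (p + a) := by rw [hpp, hκ]; ring
    rw [this, hm', ha']; ring
  -- square roots
  have hx1 : 0 < (x - (p : ℂ)).im := by simpa using hx
  have hx2 : 0 < (x - (p : ℂ) + (a' : ℂ)).im := by simpa using hx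
  obtain ⟨s, hs, hsre, hsim⟩ := exists_sqrt_upper hx1
  obtain ⟨u, hu, hure, huim⟩ := exists_sqrt_upper hx2
  set r1 := Real.sqrt (m' + a') with hr1
  set r2 := Real.sqrt m' with hr2
  have hr1sq : r1 ^ 2 = m' + a' := Real.sq_sqrt (by linarith)
  have hr2sq : r2 ^ 2 = m' := Real.sq_sqrt hm'0
  have hr1pos : 0 < r1 := Real.sqrt_pos.mpr (by linarith)
  have hr20 : 0 ≤ r2 := Real.sqrt_nonneg _
  set V : ℂ := r1 * s with hV
  set U : ℂ := r2 * u with hU
  have hVsq : V ^ 2 = ((m' + a' : ℝ) : ℂ) * (x - p) := by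
    rw [hV, mul_pow, hs, ← hr1sq]; push_cast; ring
  have hUsq : U ^ 2 = (m' : ℂ) * (x - p + a') := by
    rw [hU, mul_pow, hu]
    have : ((r2 : ℂ)) ^ 2 = (m' : ℂ) := by rw [← hr2sq]; push_cast; ring
    rw [this]
  have hprod : (a' ^ 2 * θ + U ^ 2 + V ^ 2) ^ 2 = 4 * (U ^ 2 * V ^ 2) := by
    rw [hUsq, hVsq]
    have hmc : (m : ℂ) = m' + p := by rw [hm']; push_cast; ring
    have hac : (a : ℂ) = a' - 2 * p := by rw [ha']; push_cast; ring
    have htc : (t : ℂ) = m' * (m' + a') := by rw [htm]; push_cast; ring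
    rw [hmc, hac, htc] at h
    push_cast
    linear_combination ((a' : ℂ) ^ 2) * h
  have hfac : (a' ^ 2 * θ + (U + V) ^ 2) * (a' ^ 2 * θ + (V - U) ^ 2) = 0 := by
    linear_combination hprod
  have hVre : V.re = r1 * s.re := by rw [hV]; simp
  have hVim : V.im = r1 * s.im := by rw [hV]; simp
  have hUre : U.re = r2 * u.re := by rw [hU]; simp
  have hUim : U.im = r2 * u.im := by rw [hU]; simp
  have him2 : ∀ w : ℂ, (w ^ 2).im = 2 * w.re * w.im := by
    intro w; rw [pow_two, Complex.mul_im]; ring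
  have hθim : ((a' : ℂ) ^ 2 * θ).im = a' ^ 2 * θ.im := by
    have : ((a' : ℂ) ^ 2 * θ) = ((a' ^ 2 : ℝ) : ℂ) * θ := by push_cast; ring
    rw [this, Complex.im_ofReal_mul]
  have hθnn : 0 ≤ ((a' : ℂ) ^ 2 * θ).im := by rw [hθim]; positivity
  -- relations of s,u
  have q1 : s.re * s.im = u.re * u.im := by
    have e1 := congrArg Complex.im hs
    have e2 := congrArg Complex.im hu
    rw [him2] at e1 e2
    simp only [Complex.sub_im, Complex.ofReal_im, sub_zero, Complex.add_im, add_zero] at e1 e2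
    linarith
  have q2 : u.re ^ 2 - u.im ^ 2 = s.re ^ 2 - s.im ^ 2 + a' := by
    have e1 := congrArg Complex.re hs
    have e2 := congrArg Complex.re hu
    rw [pow_two, Complex.mul_re] at e1 e2
    simp only [Complex.sub_re, Complex.ofReal_re, Complex.add_re] at e1 e2
    linear_combination e2 - e1
  rcases mul_eq_zero.mp hfac with h0 | h0
  · -- (U+V)^2 has positive imaginary part
    have e1 := congrArg Complex.im h0
    rw [Complex.add_im, him2, Complex.add_re, Complex.add_im U V, hVre, hVim, hUre, hUim,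
      Complex.zero_im] at e1
    have h5 : 0 < (r2 * u.re + r1 * s.re) * (r2 * u.im + r1 * s.im) := by
      apply mul_pos <;> positivity
    rw [mul_assoc] at e1
    linarith
  · have e1 := congrArg Complex.im h0
    rw [Complex.add_im, him2, Complex.sub_re, Complex.sub_im, hVre, hVim, hUre, hUim,
      Complex.zero_im] at e1
    obtain ⟨_, hui⟩ := cmp_sqrt hsre hsim hure huim ha'0 q1 q2
    have him : r2 * u.im < r1 * s.im := by
      have hr : r2 ≤ r1 := by
        rw [hr1, hr2]; exact Real.sqrt_le_sqrt (by linarith)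
      calc r2 * u.im ≤ r1 * u.im := mul_le_mul_of_nonneg_right hr huim.le
        _ < r1 * s.im := mul_lt_mul_of_pos_left hui hr1pos
    have hre : r2 * u.re < r1 * s.re := by
      have hG := ineq_G ha hm hp0 hpm hx hR
      have hnorm : ‖x - (p : ℂ)‖ = s.re ^ 2 + s.im ^ 2 := by
        rw [← hs, norm_pow, ← Complex.normSq_eq_norm_sq, Complex.normSq_apply]; ring
      have hxre : x.re - p = s.re ^ 2 - s.im ^ 2 := by
        have e2 := congrArg Complex.re hs
        rw [pow_two, Complex.mul_re] at e2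
        simp only [Complex.sub_re, Complex.ofReal_re] at e2
        linear_combination -e2
      rw [hnorm, hxre] at hG
      have h2m : 2 * m + a = 2 * m' + a' := by rw [hm', ha']; ring
      rw [h2m] at hG
      have hG' : m' * (m' + a') < (m' + a') * s.re ^ 2 + m' * s.im ^ 2 := by
        have h9 : a' * (s.re ^ 2 - s.im ^ 2) + (2 * m' + a') * (s.re ^ 2 + s.im ^ 2)
          = 2 * ((m' + a') * s.re ^ 2 + m' * s.im ^ 2) := by ring
        linarith
      have := re_comp hm'0 ha'0 hsre hsim hure huim q1 q2 hG'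
      have h8 : (r2 * u.re) ^ 2 < (r1 * s.re) ^ 2 := by
        rw [mul_pow, mul_pow, hr1sq, hr2sq]; exact this
      exact lt_of_pow_lt_pow_left₀ 2 (by positivity) h8
    have h5 : 0 < (r1 * s.re - r2 * u.re) * (r1 * s.im - r2 * u.im) :=
      mul_pos (by linarith) (by linarith)
    rw [mul_assoc] at e1
    linarith

end R243.ZM
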