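import Mathlib
import Pool.Agent.R243.ZM.Alg

/-! The functional `Λ_x`, its basic identity, the recursion and the Walsh-Laguerre induction. -/

namespace R243.ZM

open Polynomial

set_option maxHeartbeats 1000000

/-- the Pochhammer symbol `(a)_k` -/
noncomputable def poch (a : ℝ) (k : ℕ) : ℝ := ∏ j ∈ Finset.range k, (a + j)

/-- `x(x-1)...(x-k+1)/(a)_k` -/
noncomputable def e (a : ℝ) (k : ℕ) : ℝ[X] :=
  C (poch a k)⁻¹ * ∏ j ∈ Finset.range k, (X - C (j : ℝ))

theorem poch_pos {a : ℝ} (ha : 0 < a) (k : ℕ) : 0 < poch a k :=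
  Finset.prod_pos fun j _ => by positivity

/-- values of `e a k` -/
noncomputable def w (a : ℝ) (x : ℂ) (k : ℕ) : ℂ :=
  ((poch a k : ℝ) : ℂ)⁻¹ * ∏ j ∈ Finset.range k, (x - (j : ℂ))

theorem aeval_e (a : ℝ) (x : ℂ) (k : ℕ) : aeval x (e a k) = w a x k := by
  unfold e w
  rw [map_mul, aeval_C, map_prod]
  congr 1
  · simp
  · apply Finset.prod_congr rfl
    intro j _
    simp

theorem w_zero (a : ℝ) (x : ℂ) : w a x 0 = 1 := by simp [w, poch]

theorem w_succ {a : ℝ} (ha : 0 < a) (x : ℂ) (k : ℕ) :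
    ((a : ℂ) + k) * w a x (k + 1) = (x - k) * w a x k := by
  have h1 : ((a : ℂ) + k) ≠ 0 := by
    have : (a + k : ℝ) ≠ 0 := by positivity
    exact_mod_cast this
  have h2 : ((poch a k : ℝ) : ℂ) ≠ 0 := by exact_mod_cast (poch_pos ha k).ne'
  unfold w
  rw [Finset.prod_range_succ]
  have : ((poch a (k + 1) : ℝ) : ℂ) = (poch a k : ℝ) * (a + k) := by
    unfold poch; rw [Finset.prod_range_succ]; push_cast; ring
  rw [this]
  field_simp

/-- the functional `Λ_x` -/
noncomputable def Lam (a : ℝ) (x : ℂ) : ℂ[X] →ₗ[ℂ] ℂ :=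
  (Polynomial.basisMonomials ℂ).constr ℂ (w a x)

theorem Lam_X_pow (a : ℝ) (x : ℂ) (k : ℕ) : Lam a x (X ^ k) = w a x k := by
  have : (X ^ k : ℂ[X]) = Polynomial.basisMonomials ℂ k := by
    rw [Polynomial.coe_basisMonomials, Polynomial.X_pow_eq_monomial]
  rw [this, Lam, Module.Basis.constr_basis]

theorem Lam_C_mul (a : ℝ) (x c : ℂ) (Q : ℂ[X]) : Lam a x (C c * Q) = c * Lam a x Q := by
  rw [← smul_eq_C_mul, map_smul, smul_eq_mul]

theorem Lam_one (a : ℝ) (x : ℂ) : Lam a x 1 = 1 := by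
  have := Lam_X_pow a x 0
  rwa [pow_zero, w_zero] at this

theorem Lam_E {a : ℝ} (ha : 0 < a) (x : ℂ) (Q : ℂ[X]) :
    Lam a x (X * (1 + X) * derivative Q + C (a : ℂ) * (X * Q)) = x * Lam a x Q := by
  induction Q using Polynomial.induction_on' with
  | add p q hp hq =>
    have : X * (1 + X) * derivative (p + q) + C (a : ℂ) * (X * (p + q))
        = (X * (1 + X) * derivative p + C (a : ℂ) * (X * p)) +
          (X * (1 + X) * derivative q + C (a : ℂ) * (X * q)) := by
      rw [derivative_add]; ring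
    rw [this, map_add, hp, hq, map_add]; ring
  | monomial n c =>
    rw [← C_mul_X_pow_eq_monomial, derivative_C_mul, derivative_X_pow]
    rcases n with _ | n
    · have h1 : X * (1 + X) * (C c * (C ((0 : ℕ) : ℂ) * X ^ (0 - 1))) + C (a : ℂ) * (X * (C c * X ^ 0))
          = C ((a : ℂ) * c) * X ^ 1 := by
        simp only [Nat.cast_zero, map_zero, C_mul]; ring
      rw [h1, Lam_C_mul, Lam_C_mul, Lam_X_pow, Lam_X_pow, w_zero]
      have := w_succ ha x 0
      rw [w_zero] at this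
      simp only [Nat.cast_zero, add_zero, zero_add, sub_zero, mul_one] at this
      rw [mul_right_comm, this]; ring
    · have h1 : X * (1 + X) * (C c * (C ((n + 1 : ℕ) : ℂ) * X ^ (n + 1 - 1))) +
            C (a : ℂ) * (X * (C c * X ^ (n + 1)))
          = C (c * (n + 1 : ℕ)) * X ^ (n + 1) + C (c * ((a : ℂ) + (n + 1 : ℕ))) * X ^ (n + 1 + 1) := by
        simp only [Nat.add_sub_cancel, C_mul, C_add]; ring
      rw [h1, map_add, Lam_C_mul, Lam_C_mul, Lam_C_mul, Lam_X_pow, Lam_X_pow]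
      have := w_succ ha x (n + 1)
      linear_combination c * this

/-- `F_k(θ)` -/
noncomputable def F (a : ℝ) (x θ : ℂ) (k : ℕ) : ℂ := Lam a x ((X + C θ) ^ k)

theorem F_zero (a : ℝ) (x θ : ℂ) : F a x θ 0 = 1 := by
  unfold F; rw [pow_zero, Lam_one]

theorem F_rec {a : ℝ} (ha : 0 < a) (x θ : ℂ) (k : ℕ) :
    ((k : ℂ) + a) * F a x θ (k + 1) =
      (x + (2 * k + a) * θ - k) * F a x θ k + k * (θ * (1 - θ)) * F a x θ (k - 1) := by
  have hE := Lam_E ha x ((X + C θ) ^ k)
  unfold F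
  rcases k with _ | k
  · have h1 : X * (1 + X) * derivative ((X + C θ) ^ 0) + C (a : ℂ) * (X * (X + C θ) ^ 0)
        = C (a : ℂ) * (X + C θ) ^ (0 + 1) + C (-(a * θ)) * (X + C θ) ^ 0 := by
      simp only [pow_zero, derivative_one, C_neg, C_mul]; ring
    rw [h1, map_add, Lam_C_mul, Lam_C_mul] at hE
    push_cast
    linear_combination hE
  · have h1 : X * (1 + X) * derivative ((X + C θ) ^ (k + 1)) + C (a : ℂ) * (X * (X + C θ) ^ (k + 1))
        = C ((k + 1 : ℂ) + a) * (X + C θ) ^ (k + 1 + 1) +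
          C ((k + 1 : ℂ) * (1 - 2 * θ) - a * θ) * (X + C θ) ^ (k + 1) +
          C (-((k + 1 : ℂ) * (θ * (1 - θ)))) * (X + C θ) ^ k := by
      rw [derivative_X_add_C_pow]
      simp only [C_neg, C_mul, C_add, C_sub, C_1, Nat.add_sub_cancel, Nat.cast_add, Nat.cast_one,
        map_natCast]
      have : (C (2 : ℂ) : ℂ[X]) = 2 := rfl
      rw [this]
      ring
    rw [h1, map_add, map_add, Lam_C_mul, Lam_C_mul, Lam_C_mul] at hE
    simp only [Nat.add_sub_cancel]
    push_cast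
    linear_combination hE

/-- the polynomial `θ ↦ Λ_x(A (t+θ)^m)` -/
noncomputable def pol (a : ℝ) (x : ℂ) (A : ℂ[X]) (m : ℕ) : ℂ[X] :=
  ∑ k ∈ Finset.range (m + 1), C ((m.choose k : ℂ) * Lam a x (A * X ^ (m - k))) * X ^ k

theorem pol_eval (a : ℝ) (x : ℂ) (A : ℂ[X]) (m : ℕ) (θ : ℂ) :
    (pol a x A m).eval θ = Lam a x (A * (X + C θ) ^ m) := by
  have h1 : A * (X + C θ) ^ m =
      ∑ k ∈ Finset.range (m + 1), C (θ ^ k * (m.choose k : ℂ)) * (A * X ^ (m - k)) := by
    rw [add_comm, add_pow, Finset.mul_sum]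
    apply Finset.sum_congr rfl
    intro k _
    rw [C_mul, C_pow, C_eq_natCast]; ring
  rw [h1, map_sum]
  unfold pol
  rw [eval_finset_sum]
  apply Finset.sum_congr rfl
  intro k _
  rw [Lam_C_mul, eval_mul, eval_C, eval_pow, eval_X]; ring

theorem pol_natDegree (a : ℝ) (x : ℂ) (A : ℂ[X]) (m : ℕ) : (pol a x A m).natDegree ≤ m := by
  unfold pol
  apply natDegree_sum_le_of_forall_le
  intro k hk
  exact (natDegree_C_mul_X_pow_le _ _).trans (Nat.lt_succ_iff.mp (Finset.mem_range.mp hk))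

theorem pol_derivative (a : ℝ) (x : ℂ) (A : ℂ[X]) (m : ℕ) :
    derivative (pol a x A (m + 1)) = C ((m + 1 : ℕ) : ℂ) * pol a x A m := by
  unfold pol
  rw [Finset.sum_range_succ' _ (m + 1), derivative_add, derivative_sum]
  have h0 : derivative (C (((m + 1).choose 0 : ℂ) * Lam a x (A * X ^ (m + 1 - 0))) * X ^ 0) = 0 := by
    rw [pow_zero, mul_one, derivative_C]
  rw [h0, add_zero, Finset.mul_sum]
  apply Finset.sum_congr rfl
  intro k _
  rw [derivative_C_mul, derivative_X_pow, Nat.add_sub_cancel, Nat.add_sub_add_right]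
  have hc : ((m + 1 : ℕ) : ℂ) * (m.choose k : ℂ) = ((m + 1).choose (k + 1) : ℂ) * ((k + 1 : ℕ) : ℂ) := by
    exact_mod_cast Nat.add_one_mul_choose_eq m k
  rw [← mul_assoc, ← C_mul, ← mul_assoc, ← C_mul]
  congr 2
  linear_combination -(Lam a x (A * X ^ (m - k))) * hc

theorem im_rel {u v : ℂ} {d : ℝ} (h : u * v = (d : ℂ)) : u.im * ‖v‖ ^ 2 = -(d * v.im) := by
  have h1 : u * ((‖v‖ ^ 2 : ℝ) : ℂ) = (d : ℂ) * (starRingEnd ℂ) v := by
    rw [← h, mul_assoc, Complex.mul_conj, Complex.normSq_eq_norm_sq]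
  have h2 := congrArg Complex.im h1
  rw [Complex.im_mul_ofReal, Complex.im_ofReal_mul, Complex.conj_im] at h2
  linarith

/-- Laguerre's inequality: if `p` has no zero in the closed upper half plane then
`d p(θ) - (θ-ζ) p'(θ)` has no zero there. -/
theorem laguerre {p : ℂ[X]} {d : ℕ} (hd : 0 < d) (hdeg : p.natDegree ≤ d)
    (hp : ∀ θ : ℂ, 0 ≤ θ.im → p.eval θ ≠ 0) {ζ θ : ℂ} (hζ : 0 ≤ ζ.im) (hθ : 0 ≤ θ.im) :
    (d : ℂ) * p.eval θ - (θ - ζ) * (derivative p).eval θ ≠ 0 := by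
  intro h0
  have hsp : p.Splits := IsAlgClosed.splits p
  have hpθ := hp θ hθ
  have hder := hsp.eval_derivative_eq_eval_mul_sum hpθ
  have hp0 : p ≠ 0 := by rintro rfl; simp at hpθ
  have hroot : ∀ z ∈ p.roots, z.im < 0 := by
    intro z hz
    by_contra hcon
    exact hp z (not_lt.mp hcon) ((mem_roots hp0).mp hz)
  have hcard : p.roots.card ≤ d := (card_roots' p).trans hdeg
  have hdC : (d : ℂ) ≠ 0 := by exact_mod_cast hd.ne'
  have h1 : (θ - ζ) * (p.roots.map fun z => 1 / (θ - z)).sum = ((d : ℝ) : ℂ) := by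
    rw [hder] at h0
    have : p.eval θ * ((d : ℂ) - (θ - ζ) * (p.roots.map fun z => 1 / (θ - z)).sum) = 0 := by
      linear_combination h0
    rcases mul_eq_zero.mp this with h | h
    · exact absurd h hpθ
    · push_cast; linear_combination -h
  -- key bounds
  have key : ∀ s : Multiset ℂ, (∀ z ∈ s, z.im < 0) →
      ‖(s.map fun z => 1 / (θ - z)).sum‖ ^ 2 ≤
        (s.card : ℝ) * (s.map fun z => ‖1 / (θ - z)‖ ^ 2).sum ∧
      0 ≤ (s.map fun z => ‖1 / (θ - z)‖ ^ 2).sum ∧
      θ.im * (s.map fun z => ‖1 / (θ - z)‖ ^ 2).sum ≤ -(s.map fun z => 1 / (θ - z)).sum.im ∧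
      (s ≠ 0 → θ.im * (s.map fun z => ‖1 / (θ - z)‖ ^ 2).sum <
        -(s.map fun z => 1 / (θ - z)).sum.im) := by
    intro s
    induction s using Multiset.induction_on with
    | empty => intro _; simp
    | cons z s ih =>
      intro hz
      obtain ⟨i1, i2, i3, -⟩ := ih fun y hy => hz y (Multiset.mem_cons_of_mem hy)
      have hzim : z.im < 0 := hz z (Multiset.mem_cons_self z s)
      have hne : θ - z ≠ 0 := by
        intro h
        have := congrArg Complex.im h
        simp at this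
        linarith
      have hw : (θ - z) * (1 / (θ - z)) = ((1 : ℝ) : ℂ) := by
        rw [mul_one_div_cancel hne]; simp
      have hw2 := im_rel hw
      rw [Complex.sub_im, one_mul] at hw2
      have hwpos : 0 < ‖1 / (θ - z)‖ ^ 2 := by
        have : (1 / (θ - z)) ≠ 0 := one_div_ne_zero hne
        positivity
      simp only [Multiset.map_cons, Multiset.sum_cons, Multiset.card_cons]
      set W := 1 / (θ - z) with hW
      set S := (s.map fun z => 1 / (θ - z)).sum with hS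
      set q := (s.map fun z => ‖1 / (θ - z)‖ ^ 2).sum with hq
      have hstrict : θ.im * ‖W‖ ^ 2 < -W.im := by nlinarith
      refine ⟨?_, by positivity, ?_, ?_⟩
      · have hn := norm_add_le W S
        have h2 : 2 * (‖S‖ * ‖W‖) ≤ q + (s.card : ℝ) * ‖W‖ ^ 2 := by
          apply le_of_abs_le
          apply abs_le_of_sq_le_sq
          · have : (2 * (‖S‖ * ‖W‖)) ^ 2 = 4 * (‖S‖ ^ 2 * ‖W‖ ^ 2) := by ring
            rw [this]
            have h3 : ‖S‖ ^ 2 * ‖W‖ ^ 2 ≤ ((s.card : ℝ) * q) * ‖W‖ ^ 2 :=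
              mul_le_mul_of_nonneg_right i1 (sq_nonneg _)
            nlinarith [sq_nonneg (q - (s.card : ℝ) * ‖W‖ ^ 2)]
          · positivity
        have h3 : ‖W + S‖ ^ 2 ≤ (‖W‖ + ‖S‖) ^ 2 := pow_le_pow_left₀ (norm_nonneg _) hn 2
        push_cast
        nlinarith
      · rw [Complex.add_im]; nlinarith
      · intro _; rw [Complex.add_im]; nlinarith
  obtain ⟨k1, k2, k3, k4⟩ := key p.roots hroot
  have h2 := im_rel h1
  rw [Complex.sub_im] at h2
  set S := (p.roots.map fun z => 1 / (θ - z)).sum with hS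
  set q := (p.roots.map fun z => ‖1 / (θ - z)‖ ^ 2).sum with hq
  have hdpos : (0 : ℝ) < d := by exact_mod_cast hd
  by_cases hr : p.roots = 0
  · have : S = 0 := by rw [hS, hr]; simp
    rw [this, mul_zero] at h1
    exact hdC (by rw [← Complex.ofReal_natCast]; exact h1.symm)
  · have k5 := k4 hr
    have hc1 : (1 : ℝ) ≤ p.roots.card := by
      exact_mod_cast Nat.one_le_iff_ne_zero.mpr (by simpa using hr)
    have hc2 : (p.roots.card : ℝ) ≤ d := by exact_mod_cast hcard
    have hSim : S.im < 0 := by nlinarith [mul_nonneg hθ k2]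
    have e1 : θ.im * ‖S‖ ^ 2 ≤ θ.im * ((p.roots.card : ℝ) * q) := mul_le_mul_of_nonneg_left k1 hθ
    have e2 : θ.im * ((p.roots.card : ℝ) * q) = (p.roots.card : ℝ) * (θ.im * q) := by ring
    have e3 : (p.roots.card : ℝ) * (θ.im * q) < (p.roots.card : ℝ) * (-S.im) :=
      mul_lt_mul_of_pos_left k5 (by linarith)
    have e4 : (p.roots.card : ℝ) * (-S.im) ≤ (d : ℝ) * (-S.im) :=
      mul_le_mul_of_nonneg_right hc2 (by linarith)
    have e5 : 0 ≤ ζ.im * ‖S‖ ^ 2 := mul_nonneg hζ (sq_nonneg _)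
    nlinarith

/-- The Walsh-Laguerre induction. -/
theorem walsh {a : ℝ} {x : ℂ} (s : Multiset ℂ) :
    ∀ A : ℂ[X], (∀ z ∈ s, 0 ≤ z.im) →
      (∀ θ : ℂ, 0 ≤ θ.im → Lam a x (A * (X + C θ) ^ s.card) ≠ 0) →
      Lam a x (A * (s.map fun z => X + C z).prod) ≠ 0 := by
  induction s using Multiset.induction_on with
  | empty =>
    intro A _ h
    have := h 0 (by simp)
    simpa using this
  | cons z s ih =>
    intro A hz h
    rw [Multiset.map_cons, Multiset.prod_cons, ← mul_assoc]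
    apply ih (A * (X + C z)) (fun y hy => hz y (Multiset.mem_cons_of_mem hy))
    intro θ hθ
    have hzim := hz z (Multiset.mem_cons_self z s)
    have hL := laguerre (p := pol a x A (s.card + 1)) (d := s.card + 1) (Nat.succ_pos _)
      (pol_natDegree a x A _) (fun θ hθ => by
        rw [pol_eval]
        have := h θ hθ
        rwa [Multiset.card_cons] at this) hzim hθ
    rw [pol_derivative, eval_mul, eval_C, pol_eval, pol_eval] at hL
    intro h0
    apply hL
    have e1 : A * (X + C θ) ^ (s.card + 1) =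
        A * (X + C z) * (X + C θ) ^ s.card + C (θ - z) * (A * (X + C θ) ^ s.card) := by
      rw [C_sub]; ring
    rw [e1, map_add, Lam_C_mul, h0]
    ring

end R243.ZM
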