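import Mathlib
import Pool.Agent.R243.ZM.Lam

/-! The weighted `ℓ²` identity. -/

namespace R243.ZM

open Polynomial

set_option maxHeartbeats 1000000

/-- the weights -/
noncomputable def Wt (a r : ℝ) : ℕ → ℝ
  | 0 => 1
  | k + 1 => Wt a r k * (k + a) / ((k + 1) * r)

theorem Wt_pos {a r : ℝ} (ha : 0 < a) (hr : 0 < r) (k : ℕ) : 0 < Wt a r k := by
  induction k with
  | zero => simp [Wt]
  | succ k ih => rw [Wt]; positivity

theorem Wt_succ {a r : ℝ} (hr : 0 < r) (k : ℕ) :
    ((k : ℝ) + 1) * r * Wt a r (k + 1) = Wt a r k * (k + a) := by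
  rw [Wt]
  have : ((k : ℝ) + 1) ≠ 0 := by positivity
  field_simp

theorem sq_ident {Z E : ℂ} (hE : ‖E‖ = 1) :
    (Z - E * (starRingEnd ℂ) Z) ^ 2 =
      -2 * E * ((‖Z‖ ^ 2 - ((starRingEnd ℂ) E * Z ^ 2).re : ℝ) : ℂ) := by
  have h1 : E * (starRingEnd ℂ) E = 1 := by
    rw [Complex.mul_conj, Complex.normSq_eq_norm_sq, hE]; simp
  have h2 : ((‖Z‖ ^ 2 : ℝ) : ℂ) = Z * (starRingEnd ℂ) Z := by
    rw [Complex.mul_conj, Complex.normSq_eq_norm_sq]
  have h3 : ((((starRingEnd ℂ) E * Z ^ 2).re : ℝ) : ℂ) =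
      ((starRingEnd ℂ) E * Z ^ 2 + E * ((starRingEnd ℂ) Z) ^ 2) / 2 := by
    rw [Complex.re_eq_add_conj]
    simp
  rw [Complex.ofReal_sub, h2, h3]
  linear_combination (-Z ^ 2) * h1

theorem rel {a : ℝ} (ha : 0 < a) {x θ : ℂ} {N : ℕ} {f : ℕ → ℂ} (hf0 : f 0 = 1)
    (hrec : ∀ k : ℕ, ((k : ℂ) + a) * f (k + 1) =
      (x + (2 * k + a) * θ - k) * f k + k * (θ * (1 - θ)) * f (k - 1))
    (hN : f (N + 1) = 0) (hc : θ * (1 - θ) ≠ 0) :
    ∃ m t : ℝ, 0 ≤ m ∧ m ≤ N ∧ 0 ≤ t ∧ t ≤ m * (m + a) ∧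
      (x - m + (2 * m + a) * θ) ^ 2 = -(4 * t) * (θ * (1 - θ)) := by
  set c : ℂ := θ * (1 - θ) with hcdef
  set r : ℝ := ‖c‖ with hr
  have hrpos : 0 < r := norm_pos_iff.mpr hc
  set W := Wt a r with hW
  have hWpos : ∀ k, 0 < W k := fun k => Wt_pos ha hrpos k
  have hWs : ∀ k : ℕ, ((k : ℝ) + 1) * r * W (k + 1) = W k * (k + a) := fun k => Wt_succ hrpos k
  set S : ℝ := ∑ k ∈ Finset.range (N + 1), W k * ‖f k‖ ^ 2 with hS
  set M : ℝ := ∑ k ∈ Finset.range (N + 1), (k : ℝ) * (W k * ‖f k‖ ^ 2) with hM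
  set Z : ℂ := ∑ k ∈ Finset.range N, ((W k * (k + a) : ℝ) : ℂ) *
    (f (k + 1) * (starRingEnd ℂ) (f k)) with hZ
  have hSpos : 0 < S := by
    rw [hS]
    apply Finset.sum_pos'
    · intro k _
      have := hWpos k
      positivity
    · refine ⟨0, by simp, ?_⟩
      rw [hf0]
      have := hWpos 0
      simpa using this
  have hM0 : 0 ≤ M := Finset.sum_nonneg fun k _ => by
    have := hWpos k
    positivity
  have hMN : M ≤ N * S := by
    rw [hM, hS, Finset.mul_sum]
    apply Finset.sum_le_sum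
    intro k hk
    have h1 : (k : ℝ) ≤ N := by exact_mod_cast Nat.lt_succ_iff.mp (Finset.mem_range.mp hk)
    have := hWpos k
    exact mul_le_mul_of_nonneg_right h1 (by positivity)
  -- the identity
  have hident : (r : ℂ) * (Z - (x + a * θ) * S - (2 * θ - 1) * M) = c * (starRingEnd ℂ) Z := by
    have hconj : (starRingEnd ℂ) Z = (r : ℂ) * ∑ k ∈ Finset.range (N + 1),
        (k : ℂ) * (W k : ℂ) * (f (k - 1) * (starRingEnd ℂ) (f k)) := by
      rw [Finset.sum_range_succ', hZ, map_sum]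
      simp only [Nat.cast_zero, zero_mul, add_zero, Nat.add_sub_cancel]
      rw [Finset.mul_sum]
      apply Finset.sum_congr rfl
      intro k _
      rw [← hWs k]
      simp only [map_mul, Complex.conj_conj, Complex.conj_ofReal]
      push_cast
      ring
    have hZ' : Z = ∑ k ∈ Finset.range (N + 1), ((W k * (k + a) : ℝ) : ℂ) *
        (f (k + 1) * (starRingEnd ℂ) (f k)) := by
      rw [Finset.sum_range_succ, hN, hZ]; simp
    rw [hconj]
    have : Z - (x + a * θ) * S - (2 * θ - 1) * M = c * ∑ k ∈ Finset.range (N + 1),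
        (k : ℂ) * (W k : ℂ) * (f (k - 1) * (starRingEnd ℂ) (f k)) := by
      rw [hZ', hS, hM]
      push_cast
      rw [Finset.mul_sum, Finset.mul_sum, Finset.mul_sum, ← Finset.sum_sub_distrib,
        ← Finset.sum_sub_distrib]
      apply Finset.sum_congr rfl
      intro k _
      have h1 : ((‖f k‖ : ℝ) : ℂ) ^ 2 = f k * (starRingEnd ℂ) (f k) := by
        rw [Complex.mul_conj, Complex.normSq_eq_norm_sq]; push_cast; ring
      rw [h1]
      have h2 := hrec k
      linear_combination ((W k : ℂ) * (starRingEnd ℂ) (f k)) * h2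
    rw [this]; ring
  -- Cauchy-Schwarz
  have hCS : ‖Z‖ ^ 2 ≤ (M + a * S) * (r * M) := by
    have h1 : ‖Z‖ ≤ ∑ k ∈ Finset.range N, W k * (k + a) * (‖f (k + 1)‖ * ‖f k‖) := by
      refine (norm_sum_le _ _).trans (le_of_eq ?_)
      apply Finset.sum_congr rfl
      intro k _
      rw [norm_mul, norm_mul, RCLike.norm_conj, Complex.norm_real, Real.norm_of_nonneg]
      have := hWpos k
      positivity
    have h2 : (∑ k ∈ Finset.range N, W k * (k + a) * (‖f (k + 1)‖ * ‖f k‖)) ^ 2 ≤
        (∑ k ∈ Finset.range N, W k * (k + a) * ‖f k‖ ^ 2) *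
          ∑ k ∈ Finset.range N, W k * (k + a) * ‖f (k + 1)‖ ^ 2 := by
      apply Finset.sum_sq_le_sum_mul_sum_of_sq_le_mul
      · intro k _
        have := hWpos k
        positivity
      · intro k _
        have := hWpos k
        positivity
      · intro k _
        apply le_of_eq; ring
    have h3 : ∑ k ∈ Finset.range N, W k * (k + a) * ‖f k‖ ^ 2 ≤ M + a * S := by
      have : M + a * S = ∑ k ∈ Finset.range (N + 1), W k * (k + a) * ‖f k‖ ^ 2 := by
        rw [hM, hS, Finset.mul_sum, ← Finset.sum_add_distrib]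
        apply Finset.sum_congr rfl
        intro k _; ring
      rw [this, Finset.sum_range_succ]
      have := hWpos N
      have : 0 ≤ W N * (N + a) * ‖f N‖ ^ 2 := by positivity
      linarith
    have h4 : ∑ k ∈ Finset.range N, W k * (k + a) * ‖f (k + 1)‖ ^ 2 = r * M := by
      rw [hM, Finset.sum_range_succ']
      simp only [Nat.cast_zero, zero_mul, add_zero]
      rw [Finset.mul_sum]
      apply Finset.sum_congr rfl
      intro k _
      rw [← hWs k]
      push_cast
      ring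
    calc ‖Z‖ ^ 2 ≤ (∑ k ∈ Finset.range N, W k * (k + a) * (‖f (k + 1)‖ * ‖f k‖)) ^ 2 :=
          pow_le_pow_left₀ (norm_nonneg _) h1 2
      _ ≤ _ := h2
      _ ≤ (M + a * S) * (r * M) := by
          rw [h4]; exact mul_le_mul_of_nonneg_right h3 (by positivity)
  -- conclusion
  set E : ℂ := c / r with hE
  have hrC : (r : ℂ) ≠ 0 := by exact_mod_cast hrpos.ne'
  have hSC : (S : ℂ) ≠ 0 := by exact_mod_cast hSpos.ne'
  have hEn : ‖E‖ = 1 := by
    rw [hE, norm_div, Complex.norm_real, Real.norm_of_nonneg hrpos.le]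
    exact div_self hrpos.ne'
  set q : ℝ := ‖Z‖ ^ 2 - ((starRingEnd ℂ) E * Z ^ 2).re with hq
  have hre : |((starRingEnd ℂ) E * Z ^ 2).re| ≤ ‖Z‖ ^ 2 := by
    refine (Complex.abs_re_le_norm _).trans (le_of_eq ?_)
    rw [norm_mul, RCLike.norm_conj, hEn, one_mul, norm_pow]
  have hq0 : 0 ≤ q := by
    have := (abs_le.mp hre).2
    linarith
  have hq1 : q ≤ 2 * ‖Z‖ ^ 2 := by
    have := (abs_le.mp hre).1
    linarith
  refine ⟨M / S, q / (2 * r * S ^ 2), by positivity, ?_, by positivity, ?_, ?_⟩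
  · rw [div_le_iff₀ hSpos]; exact hMN
  · have : M / S * (M / S + a) = (M * (M + a * S)) / S ^ 2 := by field_simp
    rw [this, div_le_div_iff₀ (by positivity) (by positivity)]
    have h1 : q ≤ 2 * ((M + a * S) * (r * M)) := hq1.trans (by linarith)
    calc q * S ^ 2 ≤ (2 * ((M + a * S) * (r * M))) * S ^ 2 :=
          mul_le_mul_of_nonneg_right h1 (by positivity)
      _ = M * (M + a * S) * (2 * r * S ^ 2) := by ring
  · have hlin : x - ((M / S : ℝ) : ℂ) + (2 * ((M / S : ℝ) : ℂ) + a) * θ =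
        (Z - E * (starRingEnd ℂ) Z) / S := by
      rw [hE]
      push_cast
      field_simp
      linear_combination -hident
    rw [hlin, div_pow, sq_ident hEn, ← hq]
    have hcE : c = r * E := by rw [hE]; field_simp
    rw [hcE]
    push_cast
    field_simp
    ring

/-- Step 2: `F_n` has no zeros in the closed upper half plane. -/
theorem F_ne_zero {a : ℝ} (ha : 0 < a) {x θ : ℂ} (hx : 0 < x.im) (hθ : 0 ≤ θ.im) {N : ℕ}
    (hR : a + N ≤ ‖x‖) : F a x θ (N + 1) ≠ 0 := by
  by_cases hc : θ * (1 - θ) = 0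
  · have hstep : ∀ k : ℕ, F a x θ k ≠ 0 := by
      intro k
      induction k with
      | zero => rw [F_zero]; exact one_ne_zero
      | succ k ih =>
        intro h0
        have h1 := F_rec ha x θ k
        rw [h0, hc, mul_zero, mul_zero, zero_mul, add_zero] at h1
        rcases mul_eq_zero.mp h1.symm with h2 | h2
        · rcases mul_eq_zero.mp hc with h3 | h3
          · rw [h3] at h2
            have := congrArg Complex.im h2
            simp at this
            linarith
          · have h4 : θ = 1 := by linear_combination -h3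
            rw [h4] at h2
            have := congrArg Complex.im h2
            simp at this
            linarith
        · exact ih h2
    exact hstep (N + 1)
  · intro h0
    obtain ⟨m, t, hm0, hmN, ht0, ht1, hrel⟩ := rel ha (F_zero a x θ) (F_rec ha x θ) h0 hc
    exact no_sol ha hm0 hx hθ (by linarith) ht0 ht1 hrel

end R243.ZM
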