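import Mathlib
import Pool.Agent.R243.ZM.Rel

/-! Zeros of members of `U_n`. -/

namespace R243.ZM

open Polynomial

set_option maxHeartbeats 1000000

theorem degree_e {a : ℝ} (ha : 0 < a) (k : ℕ) : (e a k).degree = k := by
  unfold e
  rw [degree_C_mul (inv_ne_zero (poch_pos ha k).ne'), degree_prod]
  simp only [degree_X_sub_C]
  simp

/-- the polynomial sequence `e_k` -/
noncomputable def seqE {a : ℝ} (ha : 0 < a) : Polynomial.Sequence ℝ := ⟨e a, degree_e ha⟩

/-- the basis `e_k` -/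
noncomputable def basE {a : ℝ} (ha : 0 < a) : Module.Basis ℕ ℝ ℝ[X] :=
  (seqE ha).basis fun i => by
    rw [isUnit_iff_ne_zero, leadingCoeff_ne_zero]
    exact (seqE ha).ne_zero i

theorem basE_apply {a : ℝ} (ha : 0 < a) (k : ℕ) : basE ha k = e a k := by
  unfold basE
  rw [Polynomial.Sequence.basis_eq_self]
  rfl

/-- the map `x^k ↦ e_k` -/
noncomputable def Linv (a : ℝ) : ℝ[X] →ₗ[ℝ] ℝ[X] := (Polynomial.basisMonomials ℝ).constr ℝ (e a)

theorem Linv_X_pow (a : ℝ) (k : ℕ) : Linv a (X ^ k) = e a k := by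
  have : (X ^ k : ℝ[X]) = Polynomial.basisMonomials ℝ k := by
    rw [Polynomial.coe_basisMonomials, Polynomial.X_pow_eq_monomial]
  rw [this, Linv, Module.Basis.constr_basis]

theorem Linv_L {a : ℝ} (ha : 0 < a) {L : ℝ[X] →ₗ[ℝ] ℝ[X]} (hL : ∀ k, L (e a k) = X ^ k) (P : ℝ[X]) :
    Linv a (L P) = P := by
  have : Linv a ∘ₗ L = LinearMap.id := by
    apply (basE ha).ext
    intro k
    rw [LinearMap.comp_apply, basE_apply, hL, Linv_X_pow, LinearMap.id_apply]
  exact LinearMap.congr_fun this P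

theorem L_Linv {a : ℝ} {L : ℝ[X] →ₗ[ℝ] ℝ[X]} (hL : ∀ k, L (e a k) = X ^ k) (Q : ℝ[X]) :
    L (Linv a Q) = Q := by
  have : L ∘ₗ Linv a = LinearMap.id := by
    apply (Polynomial.basisMonomials ℝ).ext
    intro k
    have h1 : Polynomial.basisMonomials ℝ k = (X ^ k : ℝ[X]) := by
      rw [Polynomial.coe_basisMonomials, Polynomial.X_pow_eq_monomial]
    rw [LinearMap.comp_apply, h1, Linv_X_pow, hL, LinearMap.id_apply]
  exact LinearMap.congr_fun this Q

theorem Linv_degree_lt {a : ℝ} (ha : 0 < a) {n : ℕ} {Q : ℝ[X]} (hQ : Q.degree < n) :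
    (Linv a Q).degree < n := by
  by_cases h0 : Q = 0
  · rw [h0, map_zero, degree_zero]; exact WithBot.bot_lt_coe n
  have h1 : Q.natDegree < n := (natDegree_lt_iff_degree_lt h0).mpr hQ
  rw [as_sum_range' Q n h1, map_sum, ← mem_degreeLT]
  apply Submodule.sum_mem
  intro k hk
  rw [← C_mul_X_pow_eq_monomial, ← smul_eq_C_mul, map_smul, Linv_X_pow]
  apply Submodule.smul_mem
  rw [mem_degreeLT, degree_e ha]
  exact_mod_cast Finset.mem_range.mp hk

theorem Linv_degree {a : ℝ} (ha : 0 < a) (Q : ℝ[X]) : (Linv a Q).degree = Q.degree := by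
  by_cases h0 : Q = 0
  · rw [h0, map_zero]
  have hlc : Q.leadingCoeff ≠ 0 := leadingCoeff_ne_zero.mpr h0
  have hd : (Linv a (monomial Q.natDegree Q.leadingCoeff)).degree = (Q.natDegree : WithBot ℕ) := by
    rw [← C_mul_X_pow_eq_monomial, ← smul_eq_C_mul, map_smul, Linv_X_pow, smul_eq_C_mul,
      degree_C_mul hlc, degree_e ha]
  have hlt : (Linv a Q.eraseLead).degree < (Q.natDegree : WithBot ℕ) := by
    apply Linv_degree_lt ha
    rw [← degree_eq_natDegree h0]
    exact degree_eraseLead_lt h0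
  have hsplit : Linv a Q = Linv a (monomial Q.natDegree Q.leadingCoeff) + Linv a Q.eraseLead := by
    rw [← map_add, add_comm, eraseLead_add_monomial_natDegree_leadingCoeff]
  rw [hsplit, degree_add_eq_left_of_degree_lt (by rw [hd]; exact hlt), hd, degree_eq_natDegree h0]

theorem degree_L {a : ℝ} (ha : 0 < a) {L : ℝ[X] →ₗ[ℝ] ℝ[X]} (hL : ∀ k, L (e a k) = X ^ k)
    (P : ℝ[X]) : (L P).degree = P.degree := by
  have := Linv_degree ha (L P)
  rw [Linv_L ha hL] at this
  exact this.symm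

/-- `P(x) = Λ_x(L_a P)` -/
theorem aeval_eq {a : ℝ} (ha : 0 < a) {L : ℝ[X] →ₗ[ℝ] ℝ[X]} (hL : ∀ k, L (e a k) = X ^ k)
    (x : ℂ) (P : ℝ[X]) :
    aeval x P = Lam a x ((L P).map (algebraMap ℝ ℂ)) := by
  have : (aeval x : ℝ[X] →ₐ[ℝ] ℂ).toLinearMap =
      ((Lam a x).restrictScalars ℝ) ∘ₗ (mapAlgHom (Algebra.ofId ℝ ℂ)).toLinearMap ∘ₗ L := by
    apply (basE ha).ext
    intro k
    rw [basE_apply, AlgHom.toLinearMap_apply, aeval_e, LinearMap.comp_apply, LinearMap.comp_apply,
      hL, AlgHom.toLinearMap_apply, LinearMap.restrictScalars_apply, coe_mapAlgHom]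
    rw [Polynomial.map_pow, Polynomial.map_X, Lam_X_pow]
  have h2 := LinearMap.congr_fun this P
  rw [AlgHom.toLinearMap_apply] at h2
  exact h2

/-- positivity of the functional on products -/
theorem pos_mult {a : ℝ} {x : ℂ} {n : ℕ} {B : ℂ[X]} (hB : ∀ j ≤ n, 0 < (Lam a x (B ^ j)).re)
    (s : Multiset ℂ) : (∀ z ∈ s, z.im = 0 ∧ 0 ≤ z.re) → ∀ k, k + s.card ≤ n →
      0 < (Lam a x (B ^ k * (s.map fun z => B + C z).prod)).re := by
  induction s using Multiset.induction_on with
  | empty =>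
    intro _ k hk
    simpa using hB k (by simpa using hk)
  | cons z s ih =>
    intro hz k hk
    rw [Multiset.card_cons] at hk
    have hz' := fun y hy => hz y (Multiset.mem_cons_of_mem hy)
    have h1 := ih hz' (k + 1) (by omega)
    have h2 := ih hz' k (by omega)
    obtain ⟨i1, i2⟩ := hz z (Multiset.mem_cons_self z s)
    rw [Multiset.map_cons, Multiset.prod_cons]
    have e1 : B ^ k * ((B + C z) * (s.map fun z => B + C z).prod) =
        B ^ (k + 1) * (s.map fun z => B + C z).prod +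
          C z * (B ^ k * (s.map fun z => B + C z).prod) := by ring
    rw [e1, map_add, Lam_C_mul, Complex.add_re, Complex.mul_re, i1, zero_mul, sub_zero]
    nlinarith [mul_nonneg i2 h2.le]

theorem F_one_rec {a : ℝ} (ha : 0 < a) (x : ℂ) (k : ℕ) :
    ((k : ℂ) + a) * F a x 1 (k + 1) = (x + k + a) * F a x 1 k := by
  have := F_rec ha x 1 k
  linear_combination this

/-- real points to the right -/
theorem real_right {a : ℝ} (ha : 0 < a) {x : ℝ} {n : ℕ} (hx : (n : ℝ) - 1 < x) (s : Multiset ℂ)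
    (hs : ∀ z ∈ s, z.im = 0 ∧ 0 ≤ z.re) (hc : s.card = n) :
    Lam a (x : ℂ) ((s.map fun z => X + C z).prod) ≠ 0 := by
  have h := pos_mult (a := a) (x := (x : ℂ)) (n := n) (B := X) (by
    intro j hj
    rw [Lam_X_pow]
    have : w a (x : ℂ) j = (((poch a j)⁻¹ * ∏ i ∈ Finset.range j, (x - (i : ℝ)) : ℝ) : ℂ) := by
      unfold w; push_cast; rfl
    rw [this, Complex.ofReal_re]
    apply mul_pos (inv_pos.mpr (poch_pos ha j))
    apply Finset.prod_pos
    intro i hi
    have h1 : (i : ℝ) + 1 ≤ n := by exact_mod_cast (Finset.mem_range.mp hi).trans_le hj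
    linarith) s hs 0 (by omega)
  rw [pow_zero, one_mul] at h
  intro h0
  rw [h0] at h
  simp at h

/-- real points to the left -/
theorem real_left {a : ℝ} (ha : 0 < a) {x : ℝ} {n : ℕ} (hx : x < -(a + n - 1)) (s : Multiset ℂ)
    (hs : ∀ z ∈ s, z.im = 0 ∧ z.re ≤ 1) (hc : s.card = n) :
    Lam a (x : ℂ) ((s.map fun z => X + C z).prod) ≠ 0 := by
  have hG : ∀ j ≤ n, ∃ g : ℝ, 0 < g ∧ Lam a (x : ℂ) ((-(X + C 1)) ^ j) = (g : ℂ) := by
    intro j
    induction j with
    | zero => intro _; exact ⟨1, one_pos, by rw [pow_zero, Lam_one]; simp⟩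
    | succ j ih =>
      intro hj
      obtain ⟨g, hg, hgj⟩ := ih (by omega)
      have hneg : ∀ j : ℕ, Lam a (x : ℂ) ((-(X + C 1)) ^ j) = (-1) ^ j * F a x 1 j := by
        intro j
        rw [neg_pow, F]
        have : ((-1 : ℂ[X]) ^ j) = C ((-1) ^ j) := by simp
        rw [this, Lam_C_mul]
      have hr := F_one_rec ha (x : ℂ) j
      rw [hneg] at hgj
      have hj1 : (j : ℝ) + 1 ≤ n := by exact_mod_cast hj
      refine ⟨-(x + j + a) * g / (j + a), ?_, ?_⟩
      · apply div_pos (mul_pos (by linarith) hg); positivity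
      · rw [hneg]
        have hne : ((j : ℂ) + a) ≠ 0 := by
          have : (j + a : ℝ) ≠ 0 := by positivity
          exact_mod_cast this
        push_cast
        rw [eq_div_iff hne, ← hgj, pow_succ]
        linear_combination (-(-1 : ℂ) ^ j) * hr
  have h := pos_mult (a := a) (x := (x : ℂ)) (n := n) (B := -(X + C 1)) (by
    intro j hj
    obtain ⟨g, hg, hgj⟩ := hG j hj
    rw [hgj, Complex.ofReal_re]; exact hg) (s.map fun z => 1 - z) (by
      intro z hz
      obtain ⟨y, hy, rfl⟩ := Multiset.mem_map.mp hz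
      obtain ⟨h1, h2⟩ := hs y hy
      simp only [Complex.sub_im, Complex.one_im, Complex.sub_re, Complex.one_re]
      constructor
      · rw [h1]; simp
      · linarith) 0 (by rw [Multiset.card_map]; omega)
  rw [pow_zero, one_mul, Multiset.map_map] at h
  intro h0
  have e1 : (s.map ((fun z => -(X + C 1) + C z) ∘ fun z => 1 - z)).prod =
      C ((-1) ^ s.card) * (s.map fun z => X + C z).prod := by
    have : ((fun z => -(X + C 1) + C z) ∘ fun z : ℂ => 1 - z) = fun z : ℂ => (-1) * (X + C z) := by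
      funext z
      simp only [Function.comp_apply, C_sub]
      ring
    rw [this, Multiset.prod_map_mul, Multiset.map_const', Multiset.prod_replicate]
    simp
  rw [e1, Lam_C_mul, h0] at h
  simp at h

/-- the main upper bound -/
theorem upper {a : ℝ} (ha : 0 < a) {L : ℝ[X] →ₗ[ℝ] ℝ[X]} (hL : ∀ k, L (e a k) = X ^ k)
    {N : ℕ} {P : ℝ[X]} (hdeg : P.degree = ((N + 1 : ℕ) : WithBot ℕ))
    (hroots : ∀ z : ℂ, aeval z (L P) = 0 → z.im = 0 ∧ -1 ≤ z.re ∧ z.re ≤ 0) {x : ℂ}
    (hx : aeval x P = 0) : ‖x‖ ≤ a + N := by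
  have hLdeg : (L P).degree = ((N + 1 : ℕ) : WithBot ℕ) := by rw [degree_L ha hL]; exact hdeg
  set Q : ℂ[X] := (L P).map (algebraMap ℝ ℂ) with hQ
  have hQdeg : Q.degree = ((N + 1 : ℕ) : WithBot ℕ) := by
    rw [hQ, degree_map]; exact hLdeg
  have hQ0 : Q ≠ 0 := by
    intro h; rw [h, degree_zero] at hQdeg; exact WithBot.bot_ne_coe hQdeg
  have hQn : Q.natDegree = N + 1 := natDegree_eq_of_degree_eq_some hQdeg
  have hsp : Q.Splits := IsAlgClosed.splits Q
  have hcard : Q.roots.card = N + 1 := by rw [← hsp.natDegree_eq_card_roots, hQn]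
  have hrt : ∀ z ∈ Q.roots, z.im = 0 ∧ -1 ≤ z.re ∧ z.re ≤ 0 := by
    intro z hz
    apply hroots
    have := (mem_roots hQ0).mp hz
    rw [IsRoot, hQ, eval_map_algebraMap] at this
    exact this
  set s : Multiset ℂ := Q.roots.map fun z => -z with hs
  have hscard : s.card = N + 1 := by rw [hs, Multiset.card_map, hcard]
  have hs1 : ∀ z ∈ s, z.im = 0 ∧ 0 ≤ z.re ∧ z.re ≤ 1 := by
    intro z hz
    obtain ⟨y, hy, rfl⟩ := Multiset.mem_map.mp hz
    obtain ⟨h1, h2, h3⟩ := hrt y hy
    simp only [Complex.neg_im, Complex.neg_re]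
    refine ⟨by rw [h1]; simp, by linarith, by linarith⟩
  have hfac : Q = C Q.leadingCoeff * (s.map fun z => X + C z).prod := by
    conv_lhs => rw [hsp.eq_prod_roots]
    rw [hs, Multiset.map_map]
    congr 2
    apply Multiset.map_congr rfl
    intro z _
    simp [sub_eq_add_neg]
  have hlc : Q.leadingCoeff ≠ 0 := leadingCoeff_ne_zero.mpr hQ0
  have hval : ∀ y : ℂ, aeval y P = Q.leadingCoeff * Lam a y ((s.map fun z => X + C z).prod) := by
    intro y
    rw [aeval_eq ha hL, ← hQ]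
    conv_lhs => rw [hfac]
    rw [Lam_C_mul]
  -- non-real points
  have hup : ∀ y : ℂ, 0 < y.im → aeval y P = 0 → ‖y‖ ≤ a + N := by
    intro y hy h0
    by_contra hcon
    push Not at hcon
    rw [hval] at h0
    have hne := walsh (a := a) (x := y) s 1 (fun z hz => (hs1 z hz).1.ge) (by
      intro θ hθ
      rw [one_mul, hscard]
      exact F_ne_zero ha hy hθ hcon.le)
    rw [one_mul] at hne
    exact (mul_ne_zero hlc hne) h0
  by_contra hcon
  push Not at hcon
  rcases lt_trichotomy x.im 0 with h | h | h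
  · have hconj : aeval ((starRingEnd ℂ) x) P = 0 := by
      rw [aeval_conj, hx, map_zero]
    have := hup _ (by rw [Complex.conj_im]; linarith) hconj
    rw [RCLike.norm_conj] at this
    linarith
  · have hxr : x = ((x.re : ℝ) : ℂ) := by
      apply Complex.ext
      · simp
      · simp [h]
    have habs : a + N < |x.re| := by
      rw [hxr, Complex.norm_real, Real.norm_eq_abs] at hcon
      simpa using hcon
    have h0 := hval x
    rw [hx] at h0
    rcases abs_cases x.re with ⟨h1, _⟩ | ⟨h1, _⟩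
    · rw [h1] at habs
      have := real_right (n := N + 1) ha (x := x.re) (by push_cast; linarith) s
        (fun z hz => ⟨(hs1 z hz).1, (hs1 z hz).2.1⟩) hscard
      rw [← hxr] at this
      exact mul_ne_zero hlc this h0.symm
    · rw [h1] at habs
      have := real_left (n := N + 1) ha (x := x.re) (by push_cast; linarith) s
        (fun z hz => ⟨(hs1 z hz).1, (hs1 z hz).2.2⟩) hscard
      rw [← hxr] at this
      exact mul_ne_zero hlc this h0.symm
  · have := hup x h hx
    linarith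

theorem exists_L {a : ℝ} (ha : 0 < a) : ∃! L : ℝ[X] →ₗ[ℝ] ℝ[X], ∀ k, L (e a k) = X ^ k := by
  refine ⟨(basE ha).constr ℝ fun k => X ^ k, ?_, ?_⟩
  · intro k
    rw [← basE_apply ha k, Module.Basis.constr_basis]
  · intro L' hL'
    apply (basE ha).ext
    intro k
    rw [Module.Basis.constr_basis, basE_apply, hL']

theorem attained {a : ℝ} (ha : 0 < a) {L : ℝ[X] →ₗ[ℝ] ℝ[X]} (hL : ∀ k, L (e a k) = X ^ k) (N : ℕ) :
    ∃ P : ℝ[X], P.degree = ((N + 1 : ℕ) : WithBot ℕ) ∧
      (∀ z : ℂ, aeval z (L P) = 0 → z.im = 0 ∧ -1 ≤ z.re ∧ z.re ≤ 0) ∧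
      ∃ x : ℂ, aeval x P = 0 ∧ ‖x‖ = a + N := by
  refine ⟨Linv a ((X + C 1) ^ (N + 1)), ?_, ?_, ((-(a + N) : ℝ) : ℂ), ?_, ?_⟩
  · rw [Linv_degree ha, degree_pow, degree_X_add_C]
    simp
  · intro z hz
    rw [L_Linv hL] at hz
    simp only [map_pow, map_add, aeval_X, aeval_C] at hz
    have h1 : z + 1 = 0 := by
      have := pow_eq_zero_iff (n := N + 1) (by omega) |>.mp hz
      simpa using this
    have h2 : z = -1 := by linear_combination h1
    rw [h2]; simp
  · rw [aeval_eq ha hL, L_Linv hL]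
    have : ((X + C 1 : ℝ[X]) ^ (N + 1)).map (algebraMap ℝ ℂ) = (X + C 1) ^ (N + 1) := by simp
    rw [this]
    have hr := F_one_rec ha ((-(a + N) : ℝ) : ℂ) N
    have hne : ((N : ℂ) + a) ≠ 0 := by
      have : (N + a : ℝ) ≠ 0 := by positivity
      exact_mod_cast this
    have h0 : (((-(a + N) : ℝ) : ℂ) + N + a) = 0 := by push_cast; ring
    rw [h0, zero_mul] at hr
    exact (mul_eq_zero.mp hr).resolve_left hne
  · rw [Complex.norm_real, Real.norm_eq_abs, abs_neg, abs_of_pos (by positivity)]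

end R243.ZM
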